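import Pool.Agent.Lib.MP_7baa7a_ag.CF.R2
import Pool.Agent.Lib.MP_7baa7a_ag.CF.Uni

/-!
# The trace forms of flat connections with a complete transverse flag

`K` is a field extension of `k` of characteristic `0`, for example the function field of a smooth
complex projective variety over `k = ℂ`.  Let `d + A` be a flat connection on `K ^ n` such that the
flag of the standard basis is transverse: `∇ F_j ⊆ Ω ⊗ F_{j + 1}`, that is `A i j = 0` for
`i > j + 1` (the Kodaira-Spencer maps are the entries `A (j + 1) j`, and they may vanish).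

Then `Tr (A ^ (2 i - 1))` is exact for all `i ≥ 3`, and there are flat traceless matrices `B_s` of
size two such that `Tr (A ^ 3) - ∑ (n_s ^ 3 - n_s) / 6 * Tr (B_s ^ 3)` is exact, where the `n_s` are
the lengths of the blocks into which the flag is cut by the vanishing Kodaira-Spencer maps.
-/

set_option autoImplicit false

namespace Pool.Agent.Results.MP_7baa7a_ag.CompleteFlags

open KaehlerDifferential Pool.Agent.CFE

theorem result (k K : Type) [Field k] [Field K] [Algebra k K] [CharZero K] :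
    (∃! d : Forms k K → Forms k K, IsDeRham d) ∧ ∀ d : Forms k K → Forms k K, IsDeRham d →
    ∀ (n : ℕ) (A : Matrix (Fin n) (Fin n) (Ω[K⁄k])), Flat d A →
    (∀ i j : Fin n, (j : ℕ) + 1 < i → A i j = 0) →
    (∀ i, 3 ≤ i → Exact d (trp A (2 * i - 1))) ∧
    ∃ L : List (ℕ × Matrix (Fin 2) (Fin 2) (Ω[K⁄k])), (L.map Prod.fst).sum = n ∧ Decomp d A L ∧
      ∀ i j : Fin n, (i : ℕ) = j + 1 → (A i j = 0 ↔ ∃ r, ((L.take r).map Prod.fst).sum = i) := by
  refine ⟨⟨CFl.dd k K, CFl.deRham_dd, fun d hd => CFl.deRham_uniq hd⟩, ?_⟩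
  intro d hd n A hF hH
  have h : d = CFl.dd k K := CFl.deRham_uniq hd
  subst h
  obtain ⟨h1, L, h2, h3, h4, h5⟩ := CFl.main2 n A hF hH
  exact ⟨h1, L, h2, ⟨h3, h5⟩, h4⟩

end Pool.Agent.Results.MP_7baa7a_ag.CompleteFlags
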