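import Pool.Agent.Lib.MP_7baa7a_ag.Bri
import Pool.Agent.Lib.MP_7baa7a_ag.Ext

/-!
# The classes of a member of a family with a pole in terms of the eigenvalues of the leading coefficient

Notation as in `RigidReduction`: `K` is the function field of `X`, `D i = ∂ / ∂ x_i`, `A` is a family of flat connections over an affine curve `T`,
`e` the expansion at a point at infinity of `T`, `TrM A` are the components of the form `Tr (A ^ m)` of degree `m`, `ExactM` says that a form is exact.

Theorem: let a component `i` of the family have a pole of order at most `q > 0` in some gauge `g` over `L((u))`, `u ^ r = s`, with the coefficient `Θ` of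
`u ^ (-q)`. Then modulo exact forms all forms `Tr (A ^ m)`, `m ≥ 3` odd, of the member at `t₀` are the sums over the eigenvalues `z` of `Θ` of the
forms of flat connections `B z` over `L` whose ranks are the multiplicities of the eigenvalues. In particular, if `Θ` has `n` distinct eigenvalues, then
all these forms are exact over `K`, so (Bloch and Esnault) `c₂(V)` is torsion modulo algebraic equivalence for the flat bundle `V` which is this member
and a multiple of `c_i(V)` is homologous to zero on a divisor for `i ≥ 3`.
-/

set_option autoImplicit false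

namespace Pool.Agent.Results.MP_7baa7a_ag.EigenvalueSum

open Pool.Agent.M7 Matrix TensorProduct

theorem result (k K R L : Type) [Field k] [Field K] [CharZero K] [CommRing R] [Field L] [Algebra k K] [Algebra k R]
    [Algebra K L] [IsAlgClosure K L] (d n : ℕ)
    -- commuting derivations of `K` and their extensions to `L`
    (D : Fin d → Derivation k K K) (hD : Com fun i => ⇑(D i)) (hx : ∀ i, ∃ x, D i x = 1)
    (E : Fin d → L →+ L) (hE : ∀ i, IsDer (E i)) (hED : ∀ i a, E i (algebraMap K L a) = algebraMap K L (D i a))
    -- the curve `T`, a point of `T`, the expansion at a point at infinity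
    (δ : Derivation k R R) (hδ : ∀ r, δ r = 0 → ∃ c, algebraMap k R c = r) (t₀ : R →ₐ[k] k)
    (e : R →+* LaurentSeries k) (he : ∀ c, e (algebraMap k R c) = HahnSeries.C c)
    -- a family of flat connections
    (A : Fin d → Matrix (Fin n) (Fin n) (K ⊗[k] R))
    (hA : Flat (fun i => ⇑(LinearMap.rTensor R ((D i : K →ₗ[k] K)))) A)
    -- a gauge over `L((u))`, `u ^ r = s`, in which the component `i` has a pole of order at most `q` with the coefficient `Θ` of `u ^ (-q)`
    (r : ℕ) (hr : 0 < r) (g : GL (Fin n) (LaurentSeries L)) (i : Fin d) (q : ℕ) (hq : 0 < q)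
    (Θ : Matrix (Fin n) (Fin n) L)
    (hpole : ∀ a b, ∀ m : ℤ, m < -q → (gau (fun i => ⇑(lD (E i))) g
      (fun i => (((A i).map (exT e he)).map (lmap K L)).map (ram r hr)) i a b).coeff m = 0)
    (hΘ : ∀ a b, (gau (fun i => ⇑(lD (E i))) g
      (fun i => (((A i).map (exT e he)).map (lmap K L)).map (ram r hr)) i a b).coeff (-q) = Θ a b)
    -- the set of the eigenvalues of `Θ`
    (s : Finset L) (hs : ∀ z, z ∈ s ↔ Θ.charpoly.IsRoot z) :
    (∃ B : (z : L) → Fin d → Matrix (Fin (Θ.charpoly.rootMultiplicity z)) (Fin (Θ.charpoly.rootMultiplicity z)) L,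
      (∀ z, Flat (fun i => ⇑(E i)) (B z)) ∧ ∀ m, ExactM (fun i => ⇑(E i)) fun I : Fin (2 * m + 3) → Fin d =>
        algebraMap K L (TrM (fun i => (A i).map (evT t₀)) I) - ∑ z ∈ s, TrM (B z) I) ∧
    (Θ.charpoly.Separable →
      ∀ m, ExactM (fun i => ⇑(D i)) fun I : Fin (2 * m + 3) → Fin d => TrM (fun i => (A i).map (evT t₀)) I) :=
  mainB hD hx hE hED δ hδ t₀ e he hA r hr g i q hq Θ hpole hΘ s hs

end Pool.Agent.Results.MP_7baa7a_ag.EigenvalueSum
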