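import Pool.Agent.Lib.MP_7baa7a_ag.CF.R1
import Pool.Agent.Lib.MP_7baa7a_ag.CF.Uni

/-!
# Flat connections generated by a line whose second fundamental form has rank one

`K` is a field extension of `k` of characteristic `0`, for example the function field of a smooth
complex projective variety `X` over `k = ℂ`.  Let `d + A` be a flat connection on `K ^ n` (for
example a flat bundle on `X` at the generic point) and let `l ∈ K ^ n` be a vector with
`∇ l = l a + v b` which lies in no proper stable subspace: the rational section `[l]` of `P(V)` has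
a developing map of rank one whose image spans the fibre.

Then in a frame with first vector proportional to `l` the connection is
`ζ + γ E + η H + β F + ∑ q_t γ F ^ t`.  Either all `q_t` vanish, so that `V` is the tensor product
of a rank one connection and the `(n - 1)`-st symmetric power of the flat rank two connection with
the matrix `B = (-η, β; γ, η)`, and `Tr (A ^ 3) = (n ^ 3 - n) / 6 * Tr (B ^ 3)` modulo exact forms;
or `η` is a rational multiple of a logarithmic form, `γ β = 0` and `Tr (A ^ 3)` is exact.  In both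
cases `Tr (A ^ (2 i - 1))` is exact for all `i ≥ 3`.
-/

set_option autoImplicit false

namespace Pool.Agent.Results.MP_7baa7a_ag.RankOneLine

open KaehlerDifferential Pool.Agent.CFE

theorem result (k K : Type) [Field k] [Field K] [Algebra k K] [CharZero K] :
    (∃! d : Forms k K → Forms k K, IsDeRham d) ∧ ∀ d : Forms k K → Forms k K, IsDeRham d →
    ∀ n : ℕ, 2 ≤ n → ∀ A : Matrix (Fin n) (Fin n) (Ω[K⁄k]), Flat d A →
    ∀ (l v : Fin n → K) (a b : Ω[K⁄k]), RankOneLine A l v a b →
    ∃ (g : Matrix (Fin n) (Fin n) K) (c : K) (ζ γ η β : Ω[K⁄k]) (q : ℕ → K),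
      (∀ i j : Fin n, (j : ℕ) = 0 → g i j = c * l i) ∧ Frame A (nform n ζ γ η β q) g ∧ γ ≠ 0 ∧
      Rel n d ζ γ η β q ∧ (∀ i, 3 ≤ i → Exact d (trp A (2 * i - 1))) ∧
      (SymCase d A (two γ η β) q ∨ LogCase d A γ η β) := by
  refine ⟨⟨CFl.dd k K, CFl.deRham_dd, fun d hd => CFl.deRham_uniq hd⟩, ?_⟩
  intro d hd n hn A hF l v a b hl
  have h : d = CFl.dd k K := CFl.deRham_uniq hd
  subst h
  obtain ⟨g, c, ζ, γ, η, β, q, h1, h2, h3, h4, h5, h6, h7, h8, h9, h10⟩ :=
    CFl.main1 hn A hF l v a b hl.rk hl.gen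
  refine ⟨g, c, ζ, γ, η, β, q, h1, h2, h3, ⟨h4, h5, h6, h7, h8⟩, h9, ?_⟩
  rcases h10 with h | ⟨h11, ⟨p, hp, m, hm1, hm2, hm⟩, h12⟩
  · exact Or.inl h
  · exact Or.inr ⟨h11, ⟨p, m, hp, hm1, hm2, hm⟩, h12⟩

end Pool.Agent.Results.MP_7baa7a_ag.RankOneLine
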