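import Pool.Agent.Lib.MP_7baa7a_ag.Bri
import Pool.Agent.Lib.MP_7baa7a_ag.Ext

/-!
# Reduction of the classes of a flat connection to irreducible rigid connections

Let `X` be a smooth projective variety over `k = ℂ` with the function field `K`, let `x₁, ..., x_d` be a transcendence basis, `D i = ∂ / ∂ x_i`, and let
`V` be a flat bundle on `X` with the connection matrix `A = ∑ A i dx_i` in a rational frame. Bloch and Esnault (Algebraic Chern-Simons theory,
1997): `c₂(V)` is torsion modulo algebraic equivalence if and only if the three-form `Tr (A ^ 3)` is exact over `K`; for every `i ≥ 2` the form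
`Tr (A ^ (2 i - 1))` is exact over `K` if and only if a multiple of `c_i(V)` is homologous to zero on a divisor. Exactness over the algebraic
closure `L` of `K` is equivalent (trace).

`TrM A` are the components of the form `Tr (A ^ m)` of degree `m`, `ExactM` says that a form is exact.

Theorem: modulo exact forms all forms `Tr (A ^ (2 i - 1))`, `i ≥ 2`, of a flat connection of rank `n` over `K` are the sums of the forms of the same
irreducible rigid flat connections over `L` whose ranks have the sum `n`, and there are at least two summands if the connection is not rigid.
(`E i` is the extension of `D i` to `L`: see `exists_ext`.)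
Rigid means: every algebraic family of flat connections (poles on `X` are allowed) over an affine curve through the connection is bounded at
infinity. Every irreducible `V` with trivial determinant which is not isolated in its moduli space is not rigid in this sense: the moduli space is analytically an
affine variety, so a curve in it is not bounded.
-/

set_option autoImplicit false

namespace Pool.Agent.Results.MP_7baa7a_ag.RigidReduction

open Pool.Agent.M7 Matrix TensorProduct

theorem result (k K L : Type) [Field k] [Field K] [CharZero K] [Field L] [Algebra k K] [Algebra K L] [Algebra k L]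
    [IsScalarTower k K L] [IsAlgClosure K L] (d n : ℕ)
    -- commuting derivations of `K` and their extensions to `L`
    (D : Fin d → Derivation k K K) (hD : Com fun i => ⇑(D i)) (hx : ∀ i, ∃ x, D i x = 1)
    (E : Fin d → Derivation k L L) (hE : ∀ i a, E i (algebraMap K L a) = algebraMap K L (D i a))
    -- a flat connection of rank `n` over `K`
    (A : Fin d → Matrix (Fin n) (Fin n) K) (hA : Flat (fun i => ⇑(D i)) A) :
    ∃ l : List (Σ m : ℕ, Fin d → Matrix (Fin m) (Fin m) L),
      (∀ B ∈ l, 0 < B.1 ∧ Flat (fun i => ⇑(E i)) B.2 ∧ Irr (fun i => ⇑(E i)) B.2 ∧ Rigid E B.2) ∧
      (l.map Sigma.fst).sum = n ∧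
      (¬ Rigid D A → 2 ≤ l.length) ∧
      ∀ m, ExactM (fun i => ⇑(E i)) fun I : Fin (2 * m + 3) → Fin d =>
        algebraMap K L (TrM A I) - (l.map fun B => TrM B.2 I).sum :=
  mainR hD hx hE hA

end Pool.Agent.Results.MP_7baa7a_ag.RigidReduction
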